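import Mathlib

/-!
# Partizan games and Toads and Frogs

Well-founded partizan games (Conway's games), their negatives and sums, the two outcomes
(Left or Right has a winning strategy) under normal play, equality of games, and the game
Toads and Frogs on words over `T, E, F`.
-/

namespace Pool.Agent.V5helper7.TF

/-- A partizan game: `mk l r L R` has Left options `L i` (`i : l`) and Right options `R j`
(`j : r`). -/
inductive PG : Type 1
  | mk (l r : Type) (L : l → PG) (R : r → PG) : PG

namespace PG

/-- The negative of a game: the roles of Left and Right are exchanged. -/
def neg : PG → PG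
  | mk l r L R => mk r l (fun j => neg (R j)) (fun i => neg (L i))

/-- The disjunctive sum of two games; see `add_mk` for the recursive formula. -/
noncomputable def add (x : PG) : PG → PG :=
  PG.rec (motive := fun _ => PG → PG)
    (fun xl xr _ _ addL addR y =>
      PG.rec (motive := fun _ => PG)
        (fun yl yr yL yR addyL addyR =>
          mk (xl ⊕ yl) (xr ⊕ yr)
            (Sum.elim (fun i => addL i (mk yl yr yL yR)) addyL)
            (Sum.elim (fun i => addR i (mk yl yr yL yR)) addyR)) y) x

theorem add_mk (xl xr : Type) (xL : xl → PG) (xR : xr → PG) (yl yr : Type) (yL : yl → PG)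
    (yR : yr → PG) :
    add (mk xl xr xL xR) (mk yl yr yL yR) =
      mk (xl ⊕ yl) (xr ⊕ yr)
        (Sum.elim (fun i => add (xL i) (mk yl yr yL yR)) (fun i => add (mk xl xr xL xR) (yL i)))
        (Sum.elim (fun j => add (xR j) (mk yl yr yL yR)) (fun j => add (mk xl xr xL xR) (yR j))) :=
  rfl

/-- `(leftWins G).1`: Left wins `G` moving first; `(leftWins G).2`: Left wins `G` moving second
(normal play: a player with no legal move loses). -/
def leftWins : PG → Prop × Prop
  | mk _ _ L R => (∃ i, (leftWins (L i)).2, ∀ j, (leftWins (R j)).1)

/-- `(rightWins G).1`: Right wins `G` moving first; `(rightWins G).2`: Right wins `G` moving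
second. -/
def rightWins : PG → Prop × Prop
  | mk _ _ L R => (∃ j, (rightWins (R j)).2, ∀ i, (rightWins (L i)).1)

/-- Left, moving first, has a winning strategy. -/
def LeftWinsFirst (G : PG) : Prop := (leftWins G).1

/-- Left, moving second, has a winning strategy. -/
def LeftWinsSecond (G : PG) : Prop := (leftWins G).2

/-- Right, moving second, has a winning strategy. -/
def RightWinsSecond (G : PG) : Prop := (rightWins G).2

/-- `G` is a second-player win: whoever moves second has a winning strategy. -/
def SecondPlayerWin (G : PG) : Prop := LeftWinsSecond G ∧ RightWinsSecond G

/-- Equality of games: `G - H` is a second-player win. -/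
def Equal (G H : PG) : Prop := SecondPlayerWin (add G (neg H))

/-- The game `0 = { | }`. -/
def zero : PG := mk Empty Empty Empty.elim Empty.elim

/-- The game `1 = {0 | }`. -/
def one : PG := mk Unit Empty (fun _ => zero) Empty.elim

/-- The game `* = {0 | 0}`. -/
def star : PG := mk Unit Unit (fun _ => zero) (fun _ => zero)

end PG

/-- A square: toad, empty, frog. -/
inductive Cell
  | T
  | E
  | F
  deriving DecidableEq

open Cell

/-- Left moves: a toad slides one square to the right into an empty square, or jumps to the right
over exactly one frog into the empty square immediately beyond. -/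
inductive LeftMove : List Cell → List Cell → Prop
  | slide (u v : List Cell) : LeftMove (u ++ T :: E :: v) (u ++ E :: T :: v)
  | jump (u v : List Cell) : LeftMove (u ++ T :: F :: E :: v) (u ++ E :: F :: T :: v)

/-- Right moves: a frog slides one square to the left into an empty square, or jumps to the left
over exactly one toad into the empty square immediately beyond. -/
inductive RightMove : List Cell → List Cell → Prop
  | slide (u v : List Cell) : RightMove (u ++ E :: F :: v) (u ++ F :: E :: v)
  | jump (u v : List Cell) : RightMove (u ++ E :: T :: F :: v) (u ++ F :: T :: E :: v)

/-- A measure which decreases in every move: the number of pairs (toad, square to its right) plus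
the number of pairs (frog, square to its left). -/
def mea : List Cell → ℕ
  | [] => 0
  | T :: v => v.length + v.count F + mea v
  | _ :: v => v.count F + mea v

theorem mea_append (u w w' : List Cell) (h1 : w.length = w'.length)
    (h2 : w.count F = w'.count F) (h3 : mea w' < mea w) : mea (u ++ w') < mea (u ++ w) := by
  induction u with
  | nil => simpa using h3
  | cons c u ih =>
    cases c <;> simp [mea, List.count_append, h1, h2] <;> omega

theorem LeftMove.mea_lt {p q : List Cell} (h : LeftMove p q) : mea q < mea p := by
  cases h with
  | slide u v =>
    refine mea_append u _ _ (by simp) (by simp) ?_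
    simp [mea]
    omega
  | jump u v =>
    refine mea_append u _ _ (by simp) (by simp) ?_
    simp [mea]
    omega

theorem RightMove.mea_lt {p q : List Cell} (h : RightMove p q) : mea q < mea p := by
  cases h with
  | slide u v =>
    refine mea_append u _ _ (by simp) (by simp) ?_
    simp [mea]
  | jump u v =>
    refine mea_append u _ _ (by simp) (by simp) ?_
    simp [mea]
    omega

/-- The game Toads and Frogs started at the position `p`. -/
noncomputable def game (p : List Cell) : PG :=
  PG.mk {q : List Cell // LeftMove p q} {q : List Cell // RightMove p q}
    (fun q => game q.1) (fun q => game q.1)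
termination_by mea p
decreasing_by
  · exact q.2.mea_lt
  · exact q.2.mea_lt

/-- The position `T^a E^a F^(a-1)`. -/
def start (a : ℕ) : List Cell :=
  List.replicate a T ++ List.replicate a E ++ List.replicate (a - 1) F

end Pool.Agent.V5helper7.TF
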