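import Pool.Agent.V5helper7.TF.Check

/-! # The check of the strategy table, part 3 -/

set_option autoImplicit false

namespace Pool.Agent.V5helper7.TF

theorem chk54 : rchk (54 * 256) 256 = true := by decide +kernel

theorem chk55 : rchk (55 * 256) 256 = true := by decide +kernel

theorem chk56 : rchk (56 * 256) 256 = true := by decide +kernel

theorem chk57 : rchk (57 * 256) 256 = true := by decide +kernel

theorem chk58 : rchk (58 * 256) 256 = true := by decide +kernel

theorem chk59 : rchk (59 * 256) 256 = true := by decide +kernel

theorem chk60 : rchk (60 * 256) 256 = true := by decide +kernel

theorem chk61 : rchk (61 * 256) 256 = true := by decide +kernel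

theorem chk62 : rchk (62 * 256) 256 = true := by decide +kernel

theorem chk63 : rchk (63 * 256) 256 = true := by decide +kernel

theorem chk64 : rchk (64 * 256) 256 = true := by decide +kernel

theorem chk65 : rchk (65 * 256) 256 = true := by decide +kernel

theorem chk66 : rchk (66 * 256) 256 = true := by decide +kernel

theorem chk67 : rchk (67 * 256) 256 = true := by decide +kernel

theorem chk68 : rchk (68 * 256) 256 = true := by decide +kernel

theorem chk69 : rchk (69 * 256) 256 = true := by decide +kernel

theorem chk70 : rchk (70 * 256) 256 = true := by decide +kernel

theorem chk71 : rchk (71 * 256) 256 = true := by decide +kernel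

end Pool.Agent.V5helper7.TF
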