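import Mathlib
import Pool.Agent.V5helper7.TF.Defs
import Pool.Agent.V5helper7.TF.Part0
import Pool.Agent.V5helper7.TF.Part1
import Pool.Agent.V5helper7.TF.Part2
import Pool.Agent.V5helper7.TF.Part3

/-! # The table describes a closed set of positions -/

namespace Pool.Agent.V5helper7.TF

open Cell

theorem chk_all (c : ℕ) (hc : c < 72) : rchk (c * 256) 256 = true := by
  have : ∀ c : Fin 72, rchk (c.val * 256) 256 = true := by
    intro c
    fin_cases c

    · exact chk0
    · exact chk1
    · exact chk2
    · exact chk3
    · exact chk4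
    · exact chk5
    · exact chk6
    · exact chk7
    · exact chk8
    · exact chk9
    · exact chk10
    · exact chk11
    · exact chk12
    · exact chk13
    · exact chk14
    · exact chk15
    · exact chk16
    · exact chk17
    · exact chk18
    · exact chk19
    · exact chk20
    · exact chk21
    · exact chk22
    · exact chk23
    · exact chk24
    · exact chk25
    · exact chk26
    · exact chk27
    · exact chk28
    · exact chk29
    · exact chk30
    · exact chk31
    · exact chk32
    · exact chk33
    · exact chk34
    · exact chk35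
    · exact chk36
    · exact chk37
    · exact chk38
    · exact chk39
    · exact chk40
    · exact chk41
    · exact chk42
    · exact chk43
    · exact chk44
    · exact chk45
    · exact chk46
    · exact chk47
    · exact chk48
    · exact chk49
    · exact chk50
    · exact chk51
    · exact chk52
    · exact chk53
    · exact chk54
    · exact chk55
    · exact chk56
    · exact chk57
    · exact chk58
    · exact chk59
    · exact chk60
    · exact chk61
    · exact chk62
    · exact chk63
    · exact chk64
    · exact chk65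
    · exact chk66
    · exact chk67
    · exact chk68
    · exact chk69
    · exact chk70
    · exact chk71
  exact this ⟨c, hc⟩

theorem conj_eq_true {a b : Bool} (h : conj a b = true) : a = true ∧ b = true := by
  cases a
  · exact (Bool.false_ne_true h).elim
  · exact ⟨rfl, h⟩

theorem rchk_spec (s : Nat) : ∀ k : Nat, rchk s k = true → ∀ j, j < k → vchk (s + j) = true := by
  intro k
  induction k with
  | zero => intro _ j hj; exact absurd hj (Nat.not_lt_zero j)
  | succ k ih =>
    intro h j hj
    have h' : conj (vchk (Nat.add s k)) (rchk s k) = true := h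
    obtain ⟨h1, h2⟩ := conj_eq_true h'
    rcases Nat.lt_succ_iff_lt_or_eq.mp hj with h3 | h3
    · exact ih h2 j h3
    · subst h3; exact h1

theorem vchk_all (i : Nat) (hi : i < 18432) : vchk i = true := by
  have h := rchk_spec (i / 256 * 256) 256 (chk_all (i / 256) (by omega)) (i % 256)
    (Nat.mod_lt _ (by norm_num))
  rwa [Nat.div_add_mod' i 256] at h

/-- The digit of a cell. -/
def cv : Cell → ℕ
  | T => 1
  | E => 0
  | F => 2

/-- The code of a position in base 4, with the number `r` of free moves as top digit. -/
def enc (r : ℕ) : List Cell → ℕ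
  | [] => r
  | c :: t => cv c + 4 * enc r t

theorem cv_lt (c : Cell) : cv c < 4 := by cases c <;> decide

theorem enc_drop (r : ℕ) : ∀ (p : List Cell) (k : ℕ), k ≤ p.length →
    enc r p / 4 ^ k = enc r (p.drop k) := by
  intro p k
  induction k generalizing p with
  | zero => intro _; simp
  | succ k ih =>
    intro hk
    cases p with
    | nil => simp at hk
    | cons c t =>
      rw [List.drop_succ_cons, ← ih t (by simpa using hk), enc, pow_succ', ← Nat.div_div_eq_div_mul]
      have := cv_lt c
      congr 1
      omega

/-- Replacing a tail changes the code in a controlled way. -/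
theorem enc_append (r : ℕ) (u w w' : List Cell) (d : ℕ) (h : enc r w = enc r w' + d) :
    enc r (u ++ w) = enc r (u ++ w') + d * 4 ^ u.length := by
  induction u with
  | nil => simpa using h
  | cons c u ih =>
    simp only [List.cons_append, enc, List.length_cons, pow_succ, ih]
    ring

theorem reply_spec {y cd : ℕ} (h : reply y cd = true) (q : List Cell) (r : ℕ)
    (hq : q.length = 20) (hy : y = enc r q) :
    ∃ (q' : List Cell) (j : ℕ), LeftMove q q' ∧ j < 18432 ∧ pos j = enc r q' ∧
      q'.length = 20 := by
  unfold reply at h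
  obtain ⟨h0, h⟩ := conj_eq_true h
  have h0 : cd / 64 < 18432 := Nat.le_of_ble_eq_true h0
  generalize hm : Nat.mod (Nat.div cd 2) 32 = m at h
  cases hb : Nat.beq (Nat.mod cd 2) 0 with
  | true =>
    rw [hb] at h
    obtain ⟨h1, h⟩ := conj_eq_true h
    obtain ⟨h2, h3⟩ := conj_eq_true h
    have h1 : m ≤ 18 := Nat.le_of_ble_eq_true h1
    have h2 : y / 4 ^ m % 16 = 1 := Nat.eq_of_beq_eq_true h2
    have h3 : pos (cd / 64) = y + 3 * 4 ^ m := Nat.eq_of_beq_eq_true h3
    rw [hy, enc_drop r q m (by omega)] at h2
    have hsplit := List.take_append_drop m q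
    have hlen : (q.take m).length = m := by simp; omega
    have hdl : (q.drop m).length = 20 - m := by simp [hq]
    rcases hd : q.drop m with _ | ⟨a, _ | ⟨b, v⟩⟩
    · rw [hd] at hdl; simp at hdl; omega
    · rw [hd] at hdl; simp at hdl; omega
    · rw [hd] at h2 hsplit
      have hab : a = T ∧ b = E := by
        cases a <;> cases b <;> simp [enc, cv] at h2 ⊢ <;> omega
      obtain ⟨rfl, rfl⟩ := hab
      refine ⟨q.take m ++ E :: T :: v, cd / 64, ?_, h0, ?_, ?_⟩
      · conv => lhs; rw [← hsplit]
        exact LeftMove.slide _ _
      · rw [h3, hy]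
        conv => lhs; rw [← hsplit]
        have := enc_append r (q.take m) (E :: T :: v) (T :: E :: v) 3 (by simp [enc, cv]; ring)
        rw [this, hlen]
      · have := congrArg List.length hsplit
        simp only [List.length_append, List.length_cons] at this ⊢
        omega
  | false =>
    rw [hb] at h
    obtain ⟨h1, h⟩ := conj_eq_true h
    obtain ⟨h2, h3⟩ := conj_eq_true h
    have h1 : m ≤ 17 := Nat.le_of_ble_eq_true h1
    have h2 : y / 4 ^ m % 64 = 9 := Nat.eq_of_beq_eq_true h2
    have h3 : pos (cd / 64) = y + 15 * 4 ^ m := Nat.eq_of_beq_eq_true h3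
    rw [hy, enc_drop r q m (by omega)] at h2
    have hsplit := List.take_append_drop m q
    have hlen : (q.take m).length = m := by simp; omega
    have hdl : (q.drop m).length = 20 - m := by simp [hq]
    rcases hd : q.drop m with _ | ⟨a, _ | ⟨b, _ | ⟨c, v⟩⟩⟩
    · rw [hd] at hdl; simp at hdl; omega
    · rw [hd] at hdl; simp at hdl; omega
    · rw [hd] at hdl; simp at hdl; omega
    · rw [hd] at h2 hsplit
      have habc : a = T ∧ b = F ∧ c = E := by
        cases a <;> cases b <;> cases c <;> simp [enc, cv] at h2 ⊢ <;> omega
      obtain ⟨rfl, rfl, rfl⟩ := habc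
      refine ⟨q.take m ++ E :: F :: T :: v, cd / 64, ?_, h0, ?_, ?_⟩
      · conv => lhs; rw [← hsplit]
        exact LeftMove.jump _ _
      · rw [h3, hy]
        conv => lhs; rw [← hsplit]
        have := enc_append r (q.take m) (E :: F :: T :: v) (T :: F :: E :: v) 15
          (by simp [enc, cv]; ring)
        rw [this, hlen]
      · have := congrArg List.length hsplit
        simp only [List.length_append, List.length_cons] at this ⊢
        omega

theorem scan_nil (c rp : ℕ) : scan c [] rp =
    @Bool.rec (fun _ => Bool) (reply (Nat.sub c 1099511627776) (Nat.land rp 2097151))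
      true (Nat.beq (Nat.div c 1099511627776) 0) := rfl

theorem scan_cons (c p : ℕ) (l : List ℕ) (rp : ℕ) : scan c (p :: l) rp =
    @Bool.rec (fun _ => Bool)
      (@Bool.rec (fun _ => Bool)
        (scan c l rp)
        (conj (reply (Nat.sub c (Nat.mul 30 p)) (Nat.land rp 2097151))
          (scan c l (Nat.shiftRight rp 21)))
        (Nat.beq (Nat.mod (Nat.div c p) 64) 36))
      (conj (reply (Nat.sub c (Nat.mul 6 p)) (Nat.land rp 2097151))
        (scan c l (Nat.shiftRight rp 21)))
      (Nat.beq (Nat.mod (Nat.div c p) 16) 8) := rfl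

theorem scan_spec (c : ℕ) : ∀ (l : List ℕ) (rp : ℕ), scan c l rp = true →
    (∀ p ∈ l, (c / p % 16 = 8 → ∃ cd, reply (c - 6 * p) cd = true) ∧
      (c / p % 64 = 36 → ∃ cd, reply (c - 30 * p) cd = true)) ∧
    (c / 1099511627776 ≠ 0 → ∃ cd, reply (c - 1099511627776) cd = true) := by
  intro l
  induction l with
  | nil =>
    intro rp h
    refine ⟨by simp, fun hc => ?_⟩
    rw [scan_nil] at h
    have : Nat.beq (Nat.div c 1099511627776) 0 = false := by
      cases hb : Nat.beq (Nat.div c 1099511627776) 0
      · rfl
      · exact absurd (Nat.eq_of_beq_eq_true hb) hc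
    rw [this] at h
    exact ⟨_, h⟩
  | cons p l ih =>
    intro rp h
    rw [scan_cons] at h
    cases h1 : Nat.beq (Nat.mod (Nat.div c p) 16) 8 with
    | true =>
      rw [h1] at h
      obtain ⟨h2, h3⟩ := conj_eq_true h
      obtain ⟨i1, i2⟩ := ih _ h3
      refine ⟨?_, i2⟩
      intro p' hp'
      rcases List.mem_cons.mp hp' with rfl | hp'
      · refine ⟨fun _ => ⟨_, h2⟩, fun h4 => ?_⟩
        have h1 : c / p' % 16 = 8 := Nat.eq_of_beq_eq_true h1
        omega
      · exact i1 p' hp'
    | false =>
      rw [h1] at h
      have h1 : ¬ c / p % 16 = 8 := fun h5 => by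
        have : Nat.beq (Nat.mod (Nat.div c p) 16) 8 = true := by rw [Nat.beq_eq]; exact h5
        rw [h1] at this
        exact Bool.false_ne_true this
      cases h2 : Nat.beq (Nat.mod (Nat.div c p) 64) 36 with
      | true =>
        rw [h2] at h
        obtain ⟨h3, h4⟩ := conj_eq_true h
        obtain ⟨i1, i2⟩ := ih _ h4
        refine ⟨?_, i2⟩
        intro p' hp'
        rcases List.mem_cons.mp hp' with rfl | hp'
        · exact ⟨fun h5 => absurd h5 h1, fun _ => ⟨_, h3⟩⟩
        · exact i1 p' hp'
      | false =>
        rw [h2] at h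
        have h2 : ¬ c / p % 64 = 36 := fun h5 => by
          have : Nat.beq (Nat.mod (Nat.div c p) 64) 36 = true := by rw [Nat.beq_eq]; exact h5
          rw [h2] at this
          exact Bool.false_ne_true this
        obtain ⟨i1, i2⟩ := ih _ h
        refine ⟨?_, i2⟩
        intro p' hp'
        rcases List.mem_cons.mp hp' with rfl | hp'
        · exact ⟨fun h5 => absurd h5 h1, fun h5 => absurd h5 h2⟩
        · exact i1 p' hp'

theorem mem_pows : ∀ k < 19, 4 ^ k ∈ pows := by decide

/-- The set of positions in the table. -/
def InTable (p : List Cell) (r : ℕ) : Prop :=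
  p.length = 20 ∧ r ≤ 1 ∧ ∃ i < 18432, pos i = enc r p

theorem closed_inTable : ∀ p r, InTable p r →
    (∀ q, RightMove p q → ∃ q', LeftMove q q' ∧ InTable q' r) ∧
    (∀ m, r = m + 1 → ∃ q', LeftMove p q' ∧ InTable q' m) := by
  rintro p r ⟨hp, hr, i, hi, hpos⟩
  have hv := vchk_all i hi
  unfold vchk at hv
  obtain ⟨s1, s2⟩ := scan_spec _ _ _ hv
  rw [hpos] at s1 s2
  constructor
  · intro q hq
    cases hq with
    | slide u v =>
      have hu : u.length ≤ 18 := by simp at hp; omega
      have hw : enc r (u ++ E :: F :: v) / 4 ^ u.length % 16 = 8 := by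
        rw [enc_drop r _ _ (by simp)]
        simp [enc, cv]
        omega
      obtain ⟨cd, hcd⟩ := (s1 _ (mem_pows u.length (by omega))).1 hw
      have hy : enc r (u ++ E :: F :: v) - 6 * 4 ^ u.length = enc r (u ++ F :: E :: v) := by
        rw [enc_append r u (E :: F :: v) (F :: E :: v) 6 (by simp [enc, cv]; ring)]
        omega
      obtain ⟨q', j, h1, h2, h3, h4⟩ := reply_spec hcd (u ++ F :: E :: v) r
        (by simpa using hp) hy
      exact ⟨q', h1, h4, hr, j, h2, h3⟩
    | jump u v =>
      have hu : u.length ≤ 17 := by simp at hp; omega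
      have hw : enc r (u ++ E :: T :: F :: v) / 4 ^ u.length % 64 = 36 := by
        rw [enc_drop r _ _ (by simp)]
        simp [enc, cv]
        omega
      obtain ⟨cd, hcd⟩ := (s1 _ (mem_pows u.length (by omega))).2 hw
      have hy : enc r (u ++ E :: T :: F :: v) - 30 * 4 ^ u.length =
          enc r (u ++ F :: T :: E :: v) := by
        rw [enc_append r u (E :: T :: F :: v) (F :: T :: E :: v) 30 (by simp [enc, cv]; ring)]
        omega
      obtain ⟨q', j, h1, h2, h3, h4⟩ := reply_spec hcd (u ++ F :: T :: E :: v) r
        (by simpa using hp) hy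
      exact ⟨q', h1, h4, hr, j, h2, h3⟩
  · intro m hm
    have hm0 : m = 0 := by omega
    subst hm0
    subst hm
    have henc : ∀ p : List Cell, enc 1 p = enc 0 p + 4 ^ p.length := by
      intro p
      induction p with
      | nil => simp [enc]
      | cons c t ih => simp [enc, ih, pow_succ]; ring
    have h20 : enc 1 p = enc 0 p + 1099511627776 := by
      rw [henc p, hp]; norm_num
    obtain ⟨cd, hcd⟩ := s2 (by
      rw [h20]
      intro h
      have := Nat.div_eq_zero_iff.mp h
      omega)
    have hy : enc (0 + 1) p - 1099511627776 = enc 0 p := by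
      rw [show (0 + 1 : ℕ) = 1 from rfl, h20]
      omega
    obtain ⟨q', j, h1, h2, h3, h4⟩ := reply_spec hcd p 0 hp hy
    exact ⟨q', h1, h4, by omega, j, h2, h3⟩

theorem pos_zero : pos 0 = 1832340428117 := by decide +kernel

theorem pos_one : pos 1 = 1832340440405 := by decide +kernel

end Pool.Agent.V5helper7.TF
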