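import Mathlib
import Pool.Agent.V5helper7.TF.Defs

/-! # Strategies from closed sets of positions -/

namespace Pool.Agent.V5helper7.TF

open PG

theorem game_eq (p : List Cell) : game p =
    PG.mk {q : List Cell // LeftMove p q} {q : List Cell // RightMove p q}
    (fun q => game q.1) (fun q => game q.1) := by
  rw [game]

/-- Right can make at most `n` moves in a row in `K`. -/
def AtMost : PG → ℕ → Prop
  | PG.mk _ _ _ R, n => ∀ j, ∃ m, n = m + 1 ∧ AtMost (R j) m

/-- A set of positions (with a number of free moves of Right) in which Left always has a good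
reply. -/
def Closed (S : List Cell → ℕ → Prop) : Prop :=
  ∀ p r, S p r → (∀ q, RightMove p q → ∃ q', LeftMove q q' ∧ S q' r) ∧
    (∀ m, r = m + 1 → ∃ q', LeftMove p q' ∧ S q' m)

theorem leftWinsSecond_of_closed {S : List Cell → ℕ → Prop} (hS : Closed S) :
    ∀ (n : ℕ) (p : List Cell) (r : ℕ) (K : PG), mea p = n → S p r → AtMost K r →
      LeftWinsSecond (add (game p) K) := by
  intro n
  induction n using Nat.strong_induction_on with
  | _ n ih =>
    intro p r K hn hp hK
    obtain ⟨kl, kr, kL, kR⟩ := K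
    obtain ⟨h1, h2⟩ := hS p r hp
    rw [game_eq, add_mk]
    rintro (⟨q, hq⟩ | j)
    · obtain ⟨q', hq', hS'⟩ := h1 q hq
      have := ih (mea q') (by have := hq.mea_lt; have := hq'.mea_lt; omega) q' r
        (PG.mk kl kr kL kR) rfl hS' hK
      simp only [Sum.elim_inl]
      rw [game_eq q, add_mk]
      exact ⟨Sum.inl ⟨q', hq'⟩, this⟩
    · obtain ⟨m, hm, hK'⟩ := hK j
      obtain ⟨q', hq', hS'⟩ := h2 m hm
      have := ih (mea q') (by have := hq'.mea_lt; omega) q' m (kR j) rfl hS' hK'
      simp only [Sum.elim_inr]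
      cases hkj : kR j with
      | mk a b c d =>
        rw [hkj] at this
        rw [add_mk]
        exact ⟨Sum.inl ⟨q', hq'⟩, this⟩

theorem leftWinsFirst_not_rightWinsSecond : ∀ G : PG, ((leftWins G).1 → ¬ (rightWins G).2) ∧
    ((leftWins G).2 → ¬ (rightWins G).1) := by
  intro G
  induction G with
  | mk l r L R ihL ihR =>
    constructor
    · rintro ⟨i, hi⟩ h
      exact (ihL i).2 hi (h i)
    · rintro h ⟨j, hj⟩
      exact (ihR j).1 (h j) hj

theorem not_equal_of_leftWinsFirst {G H : PG} (h : LeftWinsFirst (add G (neg H))) :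
    ¬ Equal G H := fun h' => (leftWinsFirst_not_rightWinsSecond _).1 h h'.2

theorem atMost_neg_one : AtMost (neg one) 1 := by
  intro j
  refine ⟨0, rfl, ?_⟩
  intro k
  exact k.elim

theorem main {S : List Cell → ℕ → Prop} (hS : Closed S) {p q : List Cell} (hp : S p 1)
    (hq : S q 1) (hpq : LeftMove p q) :
    LeftWinsSecond (add (game p) (neg one)) ∧ LeftWinsFirst (add (game p) (neg one)) ∧
    ¬ Equal (game p) one ∧ ¬ Equal (game p) (add one star) ∧
    ¬ Equal (game p) (PG.mk Unit Unit (fun _ => one) (fun _ => one)) := by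
  have h2 : LeftWinsSecond (add (game p) (neg one)) :=
    leftWinsSecond_of_closed hS _ p 1 _ rfl hp atMost_neg_one
  have h1 : LeftWinsFirst (add (game p) (neg one)) := by
    have := leftWinsSecond_of_closed hS _ q 1 _ rfl hq atMost_neg_one
    rw [game_eq p]
    exact ⟨Sum.inl ⟨q, hpq⟩, this⟩
  refine ⟨h2, h1, not_equal_of_leftWinsFirst h1, not_equal_of_leftWinsFirst ?_,
    not_equal_of_leftWinsFirst ?_⟩
  · -- Left removes the star
    have : LeftWinsSecond (add (game p) (neg (add one zero))) := by
      refine leftWinsSecond_of_closed hS _ p 1 _ rfl hp ?_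
      rintro (j | j)
      · refine ⟨0, rfl, ?_⟩
        rintro (k | k)
        · exact k.elim
        · exact k.elim
      · exact j.elim
    rw [game_eq p]
    rw [game_eq p] at this
    exact ⟨Sum.inr (Sum.inr ()), this⟩
  · rw [game_eq p]
    rw [game_eq p] at h2
    exact ⟨Sum.inr (), h2⟩

end Pool.Agent.V5helper7.TF
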