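import Pool.Agent.V5helper7.TF.Data

/-! # The check of the strategy table -/

set_option autoImplicit false

namespace Pool.Agent.V5helper7.TF

/-- the leaf with index `k` (read in binary, lowest digit first) -/
noncomputable def Tr.get (t : Tr) : Nat → Nat :=
  @Tr.rec (fun _ => Nat → Nat) (fun v _ => v)
    (fun _ _ gl gr k => @Bool.rec (fun _ => Nat) (gr (Nat.div k 2)) (gl (Nat.div k 2))
      (Nat.beq (Nat.mod k 2) 0)) t

/-- the record of entry `i` -/
noncomputable def ent (i : Nat) : Nat :=
  Nat.shiftRight (table.get (Nat.div i 16)) (Nat.mul 192 (Nat.mod i 16))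

/-- the code of the position -/
noncomputable def pos (i : Nat) : Nat := Nat.land (ent i) 2199023255551

/-- the list of replies -/
noncomputable def rep (i : Nat) : Nat :=
  Nat.land (Nat.shiftRight (ent i) 41) 2854495385411919762116571938898990272765493247

/-- conjunction -/
noncomputable def conj (a b : Bool) : Bool := @Bool.rec (fun _ => Bool) false b a

/-- check that the reply with code `cd` at the position with code `y` leads into the table:
the reply is at square `cd / 2 % 32`, a slide if `cd` is even, a jump if `cd` is odd, and leads to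
the entry `cd / 64` -/
noncomputable def reply (y cd : Nat) : Bool :=
  conj (Nat.ble (Nat.succ (Nat.div cd 64)) 18432)
    (@Bool.rec (fun _ => Bool)
      (conj (Nat.ble (Nat.mod (Nat.div cd 2) 32) 17)
        (conj (Nat.beq (Nat.mod (Nat.div y (Nat.pow 4 (Nat.mod (Nat.div cd 2) 32))) 64) 9)
          (Nat.beq (pos (Nat.div cd 64))
            (Nat.add y (Nat.mul 15 (Nat.pow 4 (Nat.mod (Nat.div cd 2) 32)))))))
      (conj (Nat.ble (Nat.mod (Nat.div cd 2) 32) 18)
        (conj (Nat.beq (Nat.mod (Nat.div y (Nat.pow 4 (Nat.mod (Nat.div cd 2) 32))) 16) 1)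
          (Nat.beq (pos (Nat.div cd 64))
            (Nat.add y (Nat.mul 3 (Nat.pow 4 (Nat.mod (Nat.div cd 2) 32)))))))
      (Nat.beq (Nat.mod cd 2) 0))

/-- check all right moves at the windows in the list, and finally the free move -/
noncomputable def scan (c : Nat) (l : List Nat) : Nat → Bool :=
  @List.rec Nat (fun _ => Nat → Bool)
    (fun rp => @Bool.rec (fun _ => Bool) (reply (Nat.sub c 1099511627776) (Nat.land rp 2097151))
      true (Nat.beq (Nat.div c 1099511627776) 0))
    (fun p _ ih rp => @Bool.rec (fun _ => Bool)
      (@Bool.rec (fun _ => Bool)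
        (ih rp)
        (conj (reply (Nat.sub c (Nat.mul 30 p)) (Nat.land rp 2097151))
          (ih (Nat.shiftRight rp 21)))
        (Nat.beq (Nat.mod (Nat.div c p) 64) 36))
      (conj (reply (Nat.sub c (Nat.mul 6 p)) (Nat.land rp 2097151))
        (ih (Nat.shiftRight rp 21)))
      (Nat.beq (Nat.mod (Nat.div c p) 16) 8)) l

/-- the powers `4 ^ k`, `k < 19` -/
def pows : List Nat := [1, 4, 16, 64, 256, 1024, 4096, 16384, 65536, 262144, 1048576, 4194304,
  16777216, 67108864, 268435456, 1073741824, 4294967296, 17179869184, 68719476736]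

/-- the check of entry `i` -/
noncomputable def vchk (i : Nat) : Bool := scan (pos i) pows (rep i)

/-- the check of the entries `s, s + 1, …, s + k - 1` -/
noncomputable def rchk (s k : Nat) : Bool :=
  @Nat.rec (fun _ => Bool) true (fun j ih => conj (vchk (Nat.add s j)) ih) k

end Pool.Agent.V5helper7.TF
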